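import Pool.Agent.Q189.SP.Rel

/-!
# All relations between multiple zeta values of a weight are the relations between values at `1 - 1/n`, for almost all `n`

For an integer `n ≥ 2` let `products k n` be the rational space spanned by the products `log(n)^a Li_t(1/n) Li_s(1 - 1/n)` of
multiple polylogarithms of total weight `a + |t| + |s| = k` with `a + |t| ≥ 1`. For every finite family `s` of admissible
indices of weight `k`:

* every rational relation between the multiple zeta values `ζ(s_i)` is a relation between the numbers `Li_{s_i}(1 - 1/n)` modulo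
  `products k n`, for ALL `n ≥ 2`;
* for all `n ≤ T` but `C T ^ (1 - c)`, with ONE exceptional set for all families of weight `k`, the two spaces of relations are
  equal.

For the family of the numbers `ζ(odd, odd)` the second space is a space of relations between double polylogarithms.

The definitions and the proof are in `Pool.Agent.Q189.SP.Rel`.
-/

set_option autoImplicit false

open Module

namespace Pool.Agent.Results.MP_9206b6_nt.AllRelationsAtIntegers

open Pool.Agent.Q189.SP.Rel (Li mzv Admissible products Relations)

/-- (1) the inclusion at all integers; (2) the equality at almost all integers. -/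
theorem result (k : ℕ) :
    (∀ (n r : ℕ) (s : Fin r → List ℕ), 2 ≤ n → (∀ i, Admissible (s i)) → (∀ i, (s i).sum = k) →
      Relations (fun i => mzv (s i)) ⊥ ≤ Relations (fun i => Li (s i) (1 - 1 / n)) (products k n)) ∧
    ∃ C c : ℝ, 0 < c ∧ ∀ T : ℕ, 1 ≤ T →
      (({n : ℕ | 2 ≤ n ∧ n ≤ T ∧ ¬ ∀ (r : ℕ) (s : Fin r → List ℕ), (∀ i, Admissible (s i)) → (∀ i, (s i).sum = k) →
        Relations (fun i => Li (s i) (1 - 1 / n)) (products k n) = Relations (fun i => mzv (s i)) ⊥}.ncard : ℕ) : ℝ) ≤
          C * (T : ℝ) ^ (1 - c) :=
  ⟨fun n r s hn hs hk => Pool.Agent.Q189.SP.Rel.incl k n hn r s hs hk, Pool.Agent.Q189.SP.Rel.joined.2.2.2.2 k⟩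

end Pool.Agent.Results.MP_9206b6_nt.AllRelationsAtIntegers
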