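import Pool.Agent.Q189.SP.Rel

/-!
# The number of relations between odd double zeta values is bounded by the number at one integer

Let `m ≥ 2`, `k = 2 m`, and let `R m` be the space of the rational relations between the `m - 1` numbers `ζ(2a+1, 2b-1)`,
`a + b = m`. For an integer `n ≥ 2` let `products k n` be the rational space spanned by the products
`log(n)^a Li_t(1/n) Li_s(1 - 1/n)` of multiple polylogarithms of total weight `a + |t| + |s| = k` with `a + |t| ≥ 1`, and let
`Rn m n` be the space of the rational relations between the double polylogarithms `Li_{2a+1, 2b-1}(1 - 1/n)` modulo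
`products k n`. Then `R m` is contained in `Rn m n` for ALL `n ≥ 2`, and for every `e` the bound `dim (R m) ≤ e` holds if and only
if `dim (Rn m n) ≤ e` for ONE integer `n ≥ 2`. With `e = dim S_k` this is the open half of the question; with the known half
`dim (R m) ≥ dim S_k` (Gangl, Kaneko and Zagier) as a hypothesis, the question has a positive answer if and only if for each
even `k ≥ 4` there is one `n ≥ 2` with `dim (Rn m n) = dim S_k`.

The definitions and the proof are in `Pool.Agent.Q189.SP.Rel`. The equality of the spaces of relations for all families of a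
given weight at almost all integers is the companion `AllRelationsAtIntegers`.
-/

set_option autoImplicit false

open Module

namespace Pool.Agent.Results.MP_9206b6_nt.DoubleZetasFromOneInteger

open Pool.Agent.Q189.SP.Rel (dz R Rn cusp)

/-- (1) all integers; (2) one integer for a bound of the number of relations, for the dimension of the span of the double zeta
values; (3) the question, given the known lower bound. -/
theorem result :
    (∀ m n : ℕ, 2 ≤ m → 2 ≤ n → R m ≤ Rn m n) ∧
    (∀ m : ℕ, 2 ≤ m → finrank ℚ (Submodule.span ℚ (Set.range (dz m))) + finrank ℚ (R m) = m - 1 ∧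
      ∀ e : ℕ, (finrank ℚ (R m) ≤ e ↔ ∃ n : ℕ, 2 ≤ n ∧ finrank ℚ (Rn m n) ≤ e) ∧
        (m - 1 ≤ finrank ℚ (Submodule.span ℚ (Set.range (dz m))) + e ↔ ∃ n : ℕ, 2 ≤ n ∧ finrank ℚ (Rn m n) ≤ e)) ∧
    ((∀ m : ℕ, 2 ≤ m → cusp m ≤ finrank ℚ (R m)) →
      ((∀ m : ℕ, 2 ≤ m → finrank ℚ (Submodule.span ℚ (Set.range (dz m))) + cusp m = m - 1) ↔
        ∀ m : ℕ, 2 ≤ m → ∃ n : ℕ, 2 ≤ n ∧ finrank ℚ (Rn m n) = cusp m)) :=
  ⟨Pool.Agent.Q189.SP.Rel.joined.1, Pool.Agent.Q189.SP.Rel.joined.2.2.1, Pool.Agent.Q189.SP.Rel.joined.2.2.2.1⟩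

end Pool.Agent.Results.MP_9206b6_nt.DoubleZetasFromOneInteger
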