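import Pool.Agent.Q138.PS.XL
import Pool.Agent.Q138.PS.VY
import Pool.Agent.Q138.AI.R9206b6

/-!
# Odd double zeta values and double polylogarithms at `1 - 1/t`, `t` close to `c n^j α^n`

Let `R(m)` be the space of the rational relations between the double zeta values `ζ(2i+3, 2m-2i-3)`, `0 ≤ i < m-1`, and `R_t(m)`
that of the relations between the values `Li_{2i+3, 2m-2i-3}(1 - 1/t)` modulo the products
`log(t)^a Li_r(1/t) Li_s(1 - 1/t)` of weight `2m` with `a + |r| ≥ 1`.

For almost every real number `α > 1` the following holds. The properties `A` of integers named below are RARE along the powers of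
`α`: there is `κ > 0` such that for all algebraic numbers `c > 0`, all integers `j`, all real `D` and all large `n`, NO integer
`t ≥ b` (`b = 2` or `3`) with `|t - c n^j α^n| ≤ D (c n^j α^n)^κ` has the property `A`.

* `R_t(m) ≠ R(m)` is rare, for each `m ≥ 2`;
* for all `m ≥ 2` and `e`: `dim R(m) ≤ e` if and only if `dim R_t(m) > e` is rare;
* for each `m ≥ 2`: the double zeta values span a space of dimension `m - 1 - dim S_{2m}` (`S_{2m}` the cusp forms of weight `2m`)
  if and only if `dim R_t(m) ≠ dim S_{2m}` is rare (no lower bound for the number of relations is assumed);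
* for each `k` it is rare that for some family of admissible indices of weight `k` the relations between the values at `1 - 1/t`
  modulo the products of weight `k` are not the relations between the multiple zeta values.
-/

set_option autoImplicit false

namespace Pool.Agent.Results.MP_9206b6_nt.RelationsNearPowers

open Filter Module MeasureTheory Pool.Agent.Q138.PS Pool.Agent.Q138.AI.R9206b6

/-- **Theorem.** -/
theorem result :
    ∀ᵐ α : ℝ, 1 < α →
      (∀ m : ℕ, 2 ≤ m → RarePow α 2 fun n => Rn m n ≠ R m) ∧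
      (∀ m : ℕ, 2 ≤ m → ∀ e : ℕ, (finrank ℚ (R m) ≤ e ↔ RarePow α 2 fun n => ¬ finrank ℚ (Rn m n) ≤ e)) ∧
      (∀ m : ℕ, 2 ≤ m → (finrank ℚ (Submodule.span ℚ (Set.range (dz m))) + cusp m = m - 1 ↔
        RarePow α 2 fun n => finrank ℚ (Rn m n) ≠ cusp m)) ∧
      ∀ k : ℕ, RarePow α 2 fun n => ¬ ∀ (r : ℕ) (s : Fin r → List ℕ), (∀ i, Admissible (s i)) → (∀ i, (s i).sum = k) →
        Relations (fun i => Li (s i) (1 - 1 / n)) (products k n) = Relations (fun i => mzv (s i)) ⊥ := by
  obtain ⟨-, h2, h3, -, h5⟩ := Pool.Agent.Q138.AI.R9206b6.result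
  have hae := rarePow_ae (ι := ℕ ⊕ ℕ)
    (Sum.elim (fun m n => Rn m n ≠ R m) (fun k n => ¬ ∀ (r : ℕ) (s : Fin r → List ℕ), (∀ i, Admissible (s i)) →
      (∀ i, (s i).sum = k) → Relations (fun i => Li (s i) (1 - 1 / n)) (products k n) = Relations (fun i => mzv (s i)) ⊥))
  filter_upwards [hae] with α hg hα
  have h1 := hg hα
  have hA : ∀ m : ℕ, 2 ≤ m → RarePow α 2 fun n => Rn m n ≠ R m := fun m hm => h1 (Sum.inl m) 2 (h2 m hm)
  refine ⟨hA, fun m hm e => ⟨fun h => ?_, fun h => ?_⟩, fun m hm => ⟨fun h => ?_, fun h => ?_⟩,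
    fun k => h1 (Sum.inr k) 2 (h5 k)⟩
  · refine (hA m hm).mono le_rfl fun t _ ht hR => ht ?_
    rw [hR]
    exact h
  · obtain ⟨n, hn, hn'⟩ := h.exists_not hα
    exact (((h3 m hm).2 e).1).2 ⟨n, hn, not_not.1 hn'⟩
  · refine (hA m hm).mono le_rfl fun t _ ht hR => ht ?_
    rw [hR]
    have h6 := (h3 m hm).1
    omega
  · obtain ⟨n, -, hn⟩ := ((hA m hm).or h hα).exists_not hα
    push Not at hn
    obtain ⟨hn1, hn2⟩ := hn
    rw [hn1] at hn2
    have h6 := (h3 m hm).1
    omega

end Pool.Agent.Results.MP_9206b6_nt.RelationsNearPowers
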